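import Pool.Agent.H4.FV.OddT

set_option autoImplicit false

/-!
# Factorisation of alternating matrices over `ZMod p`

Helper file for the project FV/ODD of helper4 (task ODD-FAC): an alternating matrix `M` over a field
of odd characteristic is `Uᵀ C U` with `C` invertible and alternating and independent rows of `U`.
-/

namespace Pool.Agent.H47.FV

open Matrix
open Pool.Agent.H4.FV.Odd

/-- Factorisation of an antisymmetric matrix: `M = Uᵀ C U` with `C` invertible and linearly
independent rows of `U`. -/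
theorem fac_aux {F ι : Type} [Field F] [Fintype ι] [DecidableEq ι] (M : Matrix ι ι F)
    (hM : Mᵀ = -M) : ∃ (r : ℕ) (U : Fin r → ι → F) (C : Matrix (Fin r) (Fin r) F),
      Cᵀ = -C ∧ C.det ≠ 0 ∧ LinearIndependent F U ∧
      M = (Matrix.of U)ᵀ * C * Matrix.of U := by
  classical
  obtain ⟨W, hW⟩ : ∃ W : Submodule F (ι → F), W = LinearMap.range M.mulVecLin := ⟨_, rfl⟩
  obtain ⟨r, hr⟩ : ∃ r, r = Module.finrank F W := ⟨_, rfl⟩
  obtain ⟨b⟩ : Nonempty (Module.Basis (Fin r) F W) := by
    rw [hr]
    exact ⟨Module.finBasis F W⟩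
  obtain ⟨f, hf⟩ : ∃ f : (Fin r → F) →ₗ[F] (ι → F),
      f = W.subtype ∘ₗ b.equivFun.symm.toLinearMap := ⟨_, rfl⟩
  have hfk : LinearMap.ker f = ⊥ := by
    rw [LinearMap.ker_eq_bot, hf]
    exact (Subtype.val_injective).comp b.equivFun.symm.injective
  have hfr : LinearMap.range f = W := by
    rw [hf, LinearMap.range_comp, LinearEquiv.range, Submodule.map_top, Submodule.range_subtype]
  obtain ⟨g, hg⟩ := f.exists_leftInverse_of_injective hfk
  have hgf : LinearMap.toMatrix' g * LinearMap.toMatrix' f = 1 := by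
    rw [← LinearMap.toMatrix'_comp, hg, LinearMap.toMatrix'_id]
  have hfgM : LinearMap.toMatrix' f * LinearMap.toMatrix' g * M = M := by
    have h1 : M = LinearMap.toMatrix' M.mulVecLin := by
      rw [← Matrix.toLin'_apply', LinearMap.toMatrix'_toLin']
    have h2 : f ∘ₗ g ∘ₗ M.mulVecLin = M.mulVecLin := by
      refine LinearMap.ext fun x => ?_
      have h3 : M.mulVecLin x ∈ LinearMap.range f := by
        rw [hfr, hW]
        exact LinearMap.mem_range_self _ x
      obtain ⟨c, hc⟩ := h3
      rw [LinearMap.comp_apply, LinearMap.comp_apply, ← hc]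
      have h4 : g (f c) = c := by
        rw [← LinearMap.comp_apply, hg, LinearMap.id_apply]
      rw [h4]
    have h3 := congrArg LinearMap.toMatrix' h2
    rw [LinearMap.toMatrix'_comp, LinearMap.toMatrix'_comp, ← h1, ← Matrix.mul_assoc] at h3
    exact h3
  have hX : ∃ X : Matrix ι (Fin r) F, M * X = LinearMap.toMatrix' f := by
    have h1 : ∀ k, ∃ x : ι → F, M *ᵥ x = f (Pi.single k 1) := by
      intro k
      have h2 : f (Pi.single k 1) ∈ LinearMap.range M.mulVecLin := by
        rw [← hW, ← hfr]
        exact LinearMap.mem_range_self _ _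
      exact h2
    choose x hx using h1
    refine ⟨Matrix.of fun i k => x k i, ?_⟩
    ext i k
    rw [LinearMap.toMatrix'_apply]
    have h2 := congrFun (hx k) i
    rw [← h2]
    rfl
  obtain ⟨X, hX⟩ := hX
  have hMgf : M * (LinearMap.toMatrix' g)ᵀ * (LinearMap.toMatrix' f)ᵀ = M := by
    have h1 := congrArg Matrix.transpose hfgM
    rw [Matrix.transpose_mul, Matrix.transpose_mul, hM, Matrix.neg_mul, neg_inj,
      ← Matrix.mul_assoc] at h1
    exact h1
  refine ⟨r, fun k i => LinearMap.toMatrix' f i k,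
    LinearMap.toMatrix' g * M * (LinearMap.toMatrix' g)ᵀ, ?_, ?_, ?_, ?_⟩
  · rw [Matrix.transpose_mul, Matrix.transpose_mul, Matrix.transpose_transpose, hM,
      Matrix.neg_mul, Matrix.mul_neg, Matrix.mul_assoc]
  · refine Matrix.det_ne_zero_of_right_inverse (B := (LinearMap.toMatrix' f)ᵀ * X) ?_
    rw [← Matrix.mul_assoc, Matrix.mul_assoc (LinearMap.toMatrix' g) M,
      Matrix.mul_assoc (LinearMap.toMatrix' g), hMgf, Matrix.mul_assoc, hX, hgf]
  · have h1 : (fun k i => LinearMap.toMatrix' f i k) = fun k => W.subtype (b k) := by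
      funext k i
      rw [LinearMap.toMatrix'_apply, hf, LinearMap.comp_apply]
      have h2 : b.equivFun.symm (Pi.single k 1) = b k := by
        rw [b.equivFun_symm_apply, Finset.sum_eq_single k]
        · rw [Pi.single_eq_same, one_smul]
        · intro l _ hl
          rw [Pi.single_eq_of_ne hl, zero_smul]
        · intro h
          exact absurd (Finset.mem_univ _) h
      rw [LinearEquiv.coe_coe, h2]
    rw [h1]
    exact b.linearIndependent.map' W.subtype (Submodule.ker_subtype W)
  · have h1 : (Matrix.of fun k i => LinearMap.toMatrix' f i k) = (LinearMap.toMatrix' f)ᵀ := rfl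
    rw [h1, Matrix.transpose_transpose, ← Matrix.mul_assoc, ← Matrix.mul_assoc, hfgM, hMgf]

theorem fac : S_fac := by
  intro p hp hp2 ι _ M hM
  classical
  have hM' : (Matrix.of M)ᵀ = -(Matrix.of M) := by
    ext i j
    exact hM.2 j i
  obtain ⟨r, U, C, hC, hdet, hU, hMU⟩ := fac_aux (Matrix.of M) hM'
  have h2 : (2 : ZMod p) ≠ 0 := by
    intro h
    have h3 : ((2 : ℕ) : ZMod p) = 0 := by exact_mod_cast h
    rw [ZMod.natCast_eq_zero_iff] at h3
    exact hp2 ((Nat.prime_dvd_prime_iff_eq hp.out Nat.prime_two).1 h3)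
  have hCa : ∀ k l, C k l = - C l k := fun k l => congrFun (congrFun hC l) k
  refine ⟨r, U, C, ⟨fun k => ?_, hCa⟩, hdet, hU, fun i j => ?_⟩
  · have h3 := hCa k k
    have h4 : (2 : ZMod p) * C k k = 0 := by linear_combination h3
    exact (mul_eq_zero.1 h4).resolve_left h2
  · have h3 := congrFun (congrFun hMU i) j
    rw [Matrix.of_apply] at h3
    rw [h3, Matrix.mul_apply]
    simp only [Matrix.mul_apply, Matrix.transpose_apply, Matrix.of_apply, Finset.sum_mul]
    rw [Finset.sum_comm]
    refine Finset.sum_congr rfl fun k _ => Finset.sum_congr rfl fun l _ => ?_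
    ring

end Pool.Agent.H47.FV
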